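import Pool.Agent.J6H54.CH.Stm

/-!
# CH-13: quasi-multiplicativity of the generating functions of the boxes
-/

set_option autoImplicit false

namespace Pool.Agent.J6H19.CH13

open Finset Pool.Agent.J6H54.CH

section
variable {Λ : Type} [AddCommGroup Λ] {σ : Λ ≃ₗ[ℤ] Λ} {T : Finset (Λ × ℤ)} {p q : Λ → ℝ}
  {κ M C0 : ℝ}

theorem p_pow' (H : Hyp σ p q κ M C0) (n : ℕ) (x : Λ) : p ((σ ^ (-(n : ℤ))) x) ≤ p x :=
  (H.p_pow n x).trans (mul_le_of_le_one_left (H.p_nonneg x) (pow_le_one₀ H.κ_pos.le H.κ_lt.le))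

theorem q_pow' (H : Hyp σ p q κ M C0) (n : ℕ) (x : Λ) : q ((σ ^ (n : ℤ)) x) ≤ q x :=
  (H.q_pow n x).trans (mul_le_of_le_one_left (H.q_nonneg x) (pow_le_one₀ H.κ_pos.le H.κ_lt.le))

theorem pow_split (h1 h2 : ℕ) (x : Λ) :
    (σ ^ (-((h1 + h2 : ℕ) : ℤ))) x = (σ ^ (-(h2 : ℤ))) ((σ ^ (-(h1 : ℤ))) x) := by
  have : -((h1 + h2 : ℕ) : ℤ) = -(h2 : ℤ) + -(h1 : ℤ) := by push_cast; ring
  rw [this, pow_add_apply]

theorem sum_mem (H : Hyp σ p q κ M C0) {C : ℝ} {h1 h2 : ℕ} {v1 v2 : Λ}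
    (hv1 : v1 ∈ bx σ p q C h1) (hv2 : v2 ∈ bx σ p q C h2) :
    v1 + (σ ^ (h1 : ℤ)) v2 ∈ bx σ p q (2 * C) (h1 + h2) := by
  rw [mem_bx H] at hv1 hv2 ⊢
  constructor
  · have a1 := H.q_add v1 ((σ ^ (h1 : ℤ)) v2)
    have a2 := q_pow' H h1 v2
    linarith [hv1.1, hv2.1]
  · rw [map_add, pow_split, pow_split, pow_neg_pow]
    have a1 := H.p_add ((σ ^ (-(h2 : ℤ))) ((σ ^ (-(h1 : ℤ))) v1)) ((σ ^ (-(h2 : ℤ))) v2)
    have a2 := p_pow' H h2 ((σ ^ (-(h1 : ℤ))) v1)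
    linarith [hv1.2, hv2.2]

open Classical in
theorem card_fiber (H : Hyp σ p q κ M C0) {C : ℝ} (h1 h2 : ℕ) (w : Λ)
    (hfin : {x | p x ≤ 2 * C ∧ q x ≤ 2 * C}.Finite) :
    ((bx σ p q C h1 ×ˢ bx σ p q C h2).filter
      (fun v => v.1 + (σ ^ (h1 : ℤ)) v.2 = w)).card ≤ hfin.toFinset.card := by
  rcases ((bx σ p q C h1 ×ˢ bx σ p q C h2).filter
      (fun v => v.1 + (σ ^ (h1 : ℤ)) v.2 = w)).eq_empty_or_nonempty with h | ⟨u, hu⟩
  · rw [h]; simp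
  obtain ⟨hu1, hu2⟩ := mem_filter.1 hu
  obtain ⟨hu3, hu4⟩ := mem_product.1 hu1
  rw [mem_bx H] at hu3 hu4
  apply Finset.card_le_card_of_injOn (fun v => v.2 - u.2)
  · intro v hv
    obtain ⟨hv1, hv2⟩ := mem_filter.1 (mem_coe.1 hv)
    obtain ⟨hv3, hv4⟩ := mem_product.1 hv1
    rw [mem_bx H] at hv3 hv4
    have e : v.2 - u.2 = (σ ^ (-(h1 : ℤ))) u.1 - (σ ^ (-(h1 : ℤ))) v.1 := by
      have h3 : u.1 - v.1 = (σ ^ (h1 : ℤ)) (v.2 - u.2) := by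
        rw [map_sub, sub_eq_sub_iff_add_eq_add, hu2, add_comm, hv2]
      rw [← map_sub, h3, pow_neg_pow]
    have hq := H.q_sub v.2 u.2
    have hp := H.p_sub ((σ ^ (-(h1 : ℤ))) u.1) ((σ ^ (-(h1 : ℤ))) v.1)
    rw [← e] at hp
    rw [Set.Finite.coe_toFinset]
    exact ⟨by linarith [hu3.2, hv3.2], by linarith [hu4.1, hv4.1]⟩
  · intro v hv v' hv' h
    have hv2 := (mem_filter.1 (mem_coe.1 hv)).2
    have hv2' := (mem_filter.1 (mem_coe.1 hv')).2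
    have h2 : v.2 = v'.2 := sub_left_injective h
    apply Prod.ext _ h2
    rw [← hv2', h2] at hv2
    exact add_right_cancel hv2

theorem mul_low (H : Hyp σ p q κ M C0) (hT : Gen σ T) {C : ℝ} :
    ∃ n : ℕ, ∀ (h1 h2 : ℕ) (z : ℝ), 0 ≤ z → z ≤ 1 →
      A σ T p q C h1 z * A σ T p q C h2 z ≤ n * A σ T p q (2 * C) (h1 + h2) z := by
  classical
  have hfin := H.fin (2 * C)
  refine ⟨hfin.toFinset.card, fun h1 h2 z hz hz1 => ?_⟩
  unfold A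
  rw [Finset.sum_mul_sum, ← Finset.sum_product']
  have hmaps : ∀ v ∈ bx σ p q C h1 ×ˢ bx σ p q C h2,
      v.1 + (σ ^ (h1 : ℤ)) v.2 ∈ bx σ p q (2 * C) (h1 + h2) := by
    intro v hv
    exact sum_mem H (mem_product.1 hv).1 (mem_product.1 hv).2
  calc ∑ v ∈ bx σ p q C h1 ×ˢ bx σ p q C h2,
        z ^ len σ T (v.1, (h1 : ℤ)) * z ^ len σ T (v.2, (h2 : ℤ))
      ≤ ∑ v ∈ bx σ p q C h1 ×ˢ bx σ p q C h2,
          z ^ len σ T (v.1 + (σ ^ (h1 : ℤ)) v.2, ((h1 + h2 : ℕ) : ℤ)) := by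
        apply Finset.sum_le_sum
        intro v _
        rw [← pow_add]
        apply pow_le_pow_of_le_one hz hz1
        have := len_add hT v.1 v.2 (h1 : ℤ) (h2 : ℤ)
        rw [Nat.cast_add]
        exact this
    _ = ∑ w ∈ bx σ p q (2 * C) (h1 + h2), ∑ v ∈ (bx σ p q C h1 ×ˢ bx σ p q C h2).filter
          (fun v => v.1 + (σ ^ (h1 : ℤ)) v.2 = w),
          z ^ len σ T (v.1 + (σ ^ (h1 : ℤ)) v.2, ((h1 + h2 : ℕ) : ℤ)) :=
        (Finset.sum_fiberwise_of_maps_to hmaps _).symm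
    _ ≤ ∑ w ∈ bx σ p q (2 * C) (h1 + h2),
          (hfin.toFinset.card : ℝ) * z ^ len σ T (w, ((h1 + h2 : ℕ) : ℤ)) := by
        apply Finset.sum_le_sum
        intro w _
        have : ∑ v ∈ (bx σ p q C h1 ×ˢ bx σ p q C h2).filter
            (fun v => v.1 + (σ ^ (h1 : ℤ)) v.2 = w),
            z ^ len σ T (v.1 + (σ ^ (h1 : ℤ)) v.2, ((h1 + h2 : ℕ) : ℤ)) =
            ∑ _v ∈ (bx σ p q C h1 ×ˢ bx σ p q C h2).filter
            (fun v => v.1 + (σ ^ (h1 : ℤ)) v.2 = w), z ^ len σ T (w, ((h1 + h2 : ℕ) : ℤ)) := by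
          apply Finset.sum_congr rfl
          intro v hv
          rw [(mem_filter.1 hv).2]
        rw [this, Finset.sum_const, nsmul_eq_mul]
        apply mul_le_mul_of_nonneg_right _ (pow_nonneg hz _)
        exact_mod_cast card_fiber H h1 h2 w hfin
    _ = _ := by rw [Finset.mul_sum]

theorem mul_up (H : Hyp σ p q κ M C0) {C : ℝ} (hC : 0 ≤ C) {K : ℕ} (hK : Key σ T p q (C + C0) K)
    (h1 h2 : ℕ) (z : ℝ) (hz : 0 < z) (hz1 : z ≤ 1) :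
    z ^ K * A σ T p q C (h1 + h2) z ≤ A σ T p q (C + C0) h1 z * A σ T p q (C + C0) h2 z := by
  classical
  have hch : ∀ v : Λ, ∃ v2, p ((σ ^ (-(h1 : ℤ))) v - v2) ≤ C0 ∧ q v2 ≤ C0 := by
    intro v
    obtain ⟨y, hy1, hy2⟩ := H.appr ((σ ^ (-(h1 : ℤ))) v) 0
    refine ⟨y, hy1, ?_⟩
    rwa [zero_sub, H.q_neg] at hy2
  choose g hg1 hg2 using hch
  unfold A
  rw [Finset.sum_mul_sum, ← Finset.sum_product', Finset.mul_sum]
  set F : Λ → Λ × Λ := fun v => (v - (σ ^ (h1 : ℤ)) (g v), g v) with hFdef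
  have hF : ∀ v ∈ bx σ p q C (h1 + h2), F v ∈ bx σ p q (C + C0) h1 ×ˢ bx σ p q (C + C0) h2 := by
    intro v hv
    rw [mem_bx H] at hv
    rw [mem_product, mem_bx H, mem_bx H]
    refine ⟨⟨?_, ?_⟩, ⟨?_, ?_⟩⟩
    · show q (v - (σ ^ (h1 : ℤ)) (g v)) ≤ _
      have a1 := H.q_sub v ((σ ^ (h1 : ℤ)) (g v))
      have a2 := q_pow' H h1 (g v)
      linarith [hv.1, hg2 v]
    · show p ((σ ^ (-(h1 : ℤ))) (v - (σ ^ (h1 : ℤ)) (g v))) ≤ _
      rw [map_sub, pow_neg_pow]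
      linarith [hg1 v]
    · show q (g v) ≤ _
      linarith [hg2 v]
    · show p ((σ ^ (-(h2 : ℤ))) (g v)) ≤ _
      have e : (σ ^ (-(h2 : ℤ))) (g v) = (σ ^ (-((h1 + h2 : ℕ) : ℤ))) v -
          (σ ^ (-(h2 : ℤ))) ((σ ^ (-(h1 : ℤ))) v - g v) := by
        rw [pow_split, ← map_sub, sub_sub_cancel]
      rw [e]
      have a1 := H.p_sub ((σ ^ (-((h1 + h2 : ℕ) : ℤ))) v)
        ((σ ^ (-(h2 : ℤ))) ((σ ^ (-(h1 : ℤ))) v - g v))
      have a2 := p_pow' H h2 ((σ ^ (-(h1 : ℤ))) v - g v)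
      linarith [hv.2, hg1 v]
  have hinj : Function.Injective F := by
    intro v v' h
    have e2 : g v = g v' := congrArg Prod.snd h
    have e1 : v - (σ ^ (h1 : ℤ)) (g v) = v' - (σ ^ (h1 : ℤ)) (g v') := congrArg Prod.fst h
    rw [e2] at e1
    exact sub_left_injective e1
  calc ∑ v ∈ bx σ p q C (h1 + h2), z ^ K * z ^ len σ T (v, ((h1 + h2 : ℕ) : ℤ))
      ≤ ∑ v ∈ bx σ p q C (h1 + h2),
          z ^ len σ T ((F v).1, (h1 : ℤ)) * z ^ len σ T ((F v).2, (h2 : ℤ)) := by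
        apply Finset.sum_le_sum
        intro v hv
        rw [← pow_add, ← pow_add]
        apply pow_le_pow_of_le_one hz.le hz1
        have h := hK h1 h2 _ _ (mem_product.1 (hF v hv)).1 (mem_product.1 (hF v hv)).2
        have e : (F v).1 + (σ ^ (h1 : ℤ)) (F v).2 = v := by
          show v - (σ ^ (h1 : ℤ)) (g v) + (σ ^ (h1 : ℤ)) (g v) = v
          exact sub_add_cancel _ _
        rw [e] at h
        omega
    _ = ∑ w ∈ (bx σ p q C (h1 + h2)).image F,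
          z ^ len σ T (w.1, (h1 : ℤ)) * z ^ len σ T (w.2, (h2 : ℤ)) :=
        (Finset.sum_image (f := fun w : Λ × Λ =>
          z ^ len σ T (w.1, (h1 : ℤ)) * z ^ len σ T (w.2, (h2 : ℤ)))
          (fun x _ y _ h => hinj h)).symm
    _ ≤ ∑ w ∈ bx σ p q (C + C0) h1 ×ˢ bx σ p q (C + C0) h2,
          z ^ len σ T (w.1, (h1 : ℤ)) * z ^ len σ T (w.2, (h2 : ℤ)) := by
        apply Finset.sum_le_sum_of_subset_of_nonneg
        · intro w hw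
          obtain ⟨v, hv, rfl⟩ := mem_image.1 hw
          exact hF v hv
        · intro w _ _
          positivity

end

theorem A_nonneg {Λ : Type} [AddCommGroup Λ] (σ : Λ ≃ₗ[ℤ] Λ) (T : Finset (Λ × ℤ)) (p q : Λ → ℝ)
    (C : ℝ) (h : ℕ) {z : ℝ} (hz : 0 ≤ z) : 0 ≤ A σ T p q C h z :=
  Finset.sum_nonneg fun _ _ => pow_nonneg hz _

theorem m13 (h12 : S_enl) : S_mulA := by
  intro Λ _ σ T p q κ M C0 C z₀ K H hT hC hz₀ hK
  have hC0 := H.one_le_C0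
  have hCpos : 0 ≤ C := by linarith
  obtain ⟨b1, hb1, hb1'⟩ := h12 Λ σ T p q κ M C0 C (2 * C) z₀ H hT hC hz₀
  obtain ⟨b2, hb2, hb2'⟩ := h12 Λ σ T p q κ M C0 C (C + C0) z₀ H hT hC hz₀
  obtain ⟨n, hn⟩ := mul_low H hT (C := C)
  have hzK : 0 < z₀ ^ K := pow_pos hz₀ K
  refine ⟨1 / ((n + 1) * b1), b2 * b2 / z₀ ^ K, by positivity, by positivity, ?_⟩
  intro h1 h2 z hz hz1
  have hzpos : 0 < z := lt_of_lt_of_le hz₀ hz
  have n1 := A_nonneg σ T p q C h1 hzpos.le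
  have n2 := A_nonneg σ T p q C h2 hzpos.le
  have n3 := A_nonneg σ T p q C (h1 + h2) hzpos.le
  constructor
  · have e1 := hn h1 h2 z hzpos.le hz1
    have e2 := hb1' (h1 + h2) z hz hz1
    have e3 : (n : ℝ) * A σ T p q (2 * C) (h1 + h2) z ≤
        (n + 1) * (b1 * A σ T p q C (h1 + h2) z) := by
      have h4 := A_nonneg σ T p q (2 * C) (h1 + h2) hzpos.le
      have h5 : (0 : ℝ) ≤ (n : ℝ) + 1 := by positivity
      have h6 := mul_le_mul_of_nonneg_left e2 h5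
      linarith
    rw [div_mul_eq_mul_div, one_mul, div_le_iff₀ (by positivity)]
    linarith
  · have e1 := mul_up H hCpos hK h1 h2 z hzpos hz1
    have e2 := hb2' h1 z hz hz1
    have e3 := hb2' h2 z hz hz1
    have e4 : A σ T p q (C + C0) h1 z * A σ T p q (C + C0) h2 z ≤
        (b2 * A σ T p q C h1 z) * (b2 * A σ T p q C h2 z) :=
      mul_le_mul e2 e3 (A_nonneg σ T p q _ h2 hzpos.le) (by positivity)
    have e5 : z₀ ^ K * A σ T p q C (h1 + h2) z ≤ z ^ K * A σ T p q C (h1 + h2) z :=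
      mul_le_mul_of_nonneg_right (pow_le_pow_left₀ hz₀.le hz K) n3
    rw [div_mul_eq_mul_div, le_div_iff₀ hzK]
    linarith

end Pool.Agent.J6H19.CH13
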